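import Pool.Agent.H101.HB.Stm

set_option autoImplicit false

open Complex MeasureTheory Filter Topology Set

namespace Pool.Agent.H353.HB

open Pool.Agent.H101.HB

/-- the Gaussian factor -/
noncomputable def zz (T σ : ℝ) (s : ℂ) : ℂ := cexp ((s - (σ : ℂ)) ^ 2 / (T : ℂ) ^ 2)

lemma W_eq (P : Polynomial ℝ) (T σ : ℝ) (s : ℂ) :
    W P T σ s = (P.map (algebraMap ℝ ℂ)).eval (zz T σ s) * zz T σ s := rfl

lemma zz_hd (T σ : ℝ) (s : ℂ) :
    HasDerivAt (zz T σ) (zz T σ s * (2 * (s - σ) / (T : ℂ) ^ 2)) s := by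
  have h1 : HasDerivAt (fun s : ℂ => (s - (σ : ℂ)) ^ 2 / (T : ℂ) ^ 2)
      (2 * (s - σ) / (T : ℂ) ^ 2) s := by
    have := (((hasDerivAt_id s).sub_const (σ : ℂ)).pow 2).div_const ((T : ℂ) ^ 2)
    simpa using this
  exact h1.cexp

lemma W_hd (P : Polynomial ℝ) (T σ : ℝ) (s : ℂ) :
    HasDerivAt (W P T σ) (((P.map (algebraMap ℝ ℂ)) * Polynomial.X).derivative.eval (zz T σ s) *
      (zz T σ s * (2 * (s - σ) / (T : ℂ) ^ 2))) s := by
  have h1 : HasDerivAt (fun z : ℂ => ((P.map (algebraMap ℝ ℂ)) * Polynomial.X).eval z)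
      (((P.map (algebraMap ℝ ℂ)) * Polynomial.X).derivative.eval (zz T σ s)) (zz T σ s) :=
    Polynomial.hasDerivAt _ _
  have h2 := h1.comp s (zz_hd T σ s)
  have h3 : (fun z : ℂ => ((P.map (algebraMap ℝ ℂ)) * Polynomial.X).eval z) ∘ zz T σ =
      W P T σ := by
    ext w
    simp [W_eq]
  rw [h3] at h2
  exact h2

lemma zz_norm (T σ c t : ℝ) (hT : 3 ≤ T) (hc : |c - σ| ≤ 3) :
    ‖zz T σ ((c : ℂ) + t * I)‖ ≤ 3 * Real.exp (-(t ^ 2 / T ^ 2)) := by
  have hT0 : (T : ℂ) ≠ 0 := by exact_mod_cast (by linarith : T ≠ 0)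
  have hTr : T ≠ 0 := by linarith
  have h1 : ((c : ℂ) + t * I - σ) ^ 2 / (T : ℂ) ^ 2 = ((((c - σ) ^ 2 - t ^ 2) / T ^ 2 : ℝ) : ℂ) +
      (((2 * (c - σ) * t) / T ^ 2 : ℝ) : ℂ) * I := by
    push_cast
    field_simp
    linear_combination (t : ℂ) ^ 2 * I_sq
  rw [zz, Complex.norm_exp, h1]
  have h2 : (((((c - σ) ^ 2 - t ^ 2) / T ^ 2 : ℝ) : ℂ) +
      (((2 * (c - σ) * t) / T ^ 2 : ℝ) : ℂ) * I).re = (c - σ) ^ 2 / T ^ 2 + -(t ^ 2 / T ^ 2) := by
    rw [Complex.add_re, Complex.ofReal_re, Complex.re_ofReal_mul, Complex.I_re, mul_zero, add_zero]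
    ring
  rw [h2, Real.exp_add]
  apply mul_le_mul_of_nonneg_right _ (Real.exp_pos _).le
  have h3 : (c - σ) ^ 2 / T ^ 2 ≤ 1 := by
    rw [div_le_one (by positivity)]
    have : |c - σ| ≤ |T| := by rw [abs_of_pos (by linarith : 0 < T)]; linarith
    exact sq_le_sq.2 this
  calc Real.exp ((c - σ) ^ 2 / T ^ 2) ≤ Real.exp 1 := Real.exp_le_exp.2 h3
    _ ≤ 3 := by have := Real.exp_one_lt_d9; linarith

/-- the dominating function -/
noncomputable def gg (T t : ℝ) : ℝ :=
  (Icc (-T) T).indicator (fun t => (Real.sqrt (1 + t ^ 2))⁻¹) t +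
    (1 / T) * Real.exp (-(1 / (2 * T ^ 2)) * t ^ 2)

lemma gg_integrable (T : ℝ) (hT : 3 ≤ T) : Integrable (gg T) := by
  unfold gg
  apply Integrable.add
  · rw [integrable_indicator_iff measurableSet_Icc]
    apply Continuous.integrableOn_Icc
    apply Continuous.inv₀ (by fun_prop)
    intro x
    positivity
  · apply Integrable.const_mul
    exact integrable_exp_neg_mul_sq (by positivity)

lemma gg_integral (T : ℝ) (hT : 3 ≤ T) : ∫ t, gg T t ≤ 8 * Real.log T := by
  have hT0 : 0 < T := by linarith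
  have hlog : 1 ≤ Real.log T := by
    rw [Real.le_log_iff_exp_le hT0]
    have := Real.exp_one_lt_d9
    linarith
  unfold gg
  rw [integral_add, integral_indicator measurableSet_Icc, integral_const_mul, integral_gaussian,
    integral_Icc_eq_integral_Ioc, ← intervalIntegral.integral_of_le (by linarith),
    intervalIntegral.integral_eq_sub_of_hasDerivAt (f := Real.arsinh)
      (fun x _ => Real.hasDerivAt_arsinh x)]
  · rw [Real.arsinh_neg]
    have h1 : Real.arsinh T ≤ 2 * Real.log T := by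
      have : Real.log T * 2 = Real.log (T ^ 2) := by rw [Real.log_pow]; push_cast; ring
      rw [mul_comm, this, Real.arsinh]
      apply Real.log_le_log
      · positivity
      · have : Real.sqrt (1 + T ^ 2) ≤ 2 * T := by
          apply Real.sqrt_le_iff.2
          constructor
          · linarith
          · nlinarith
        nlinarith
    have h2 : (1 / T) * Real.sqrt (Real.pi / (1 / (2 * T ^ 2))) ≤ 4 := by
      have e : Real.pi / (1 / (2 * T ^ 2)) = (2 * Real.pi) * T ^ 2 := by field_simp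
      rw [e, Real.sqrt_mul (by positivity), Real.sqrt_sq hT0.le]
      have e2 : (1 / T) * (Real.sqrt (2 * Real.pi) * T) = Real.sqrt (2 * Real.pi) := by field_simp
      rw [e2, Real.sqrt_le_iff]
      constructor
      · norm_num
      · have := Real.pi_lt_d2
        linarith
    linarith
  · apply ContinuousOn.intervalIntegrable
    apply Continuous.continuousOn
    apply Continuous.inv₀ (by fun_prop)
    intro x
    positivity
  · rw [integrable_indicator_iff measurableSet_Icc]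
    apply Continuous.integrableOn_Icc
    apply Continuous.inv₀ (by fun_prop)
    intro x
    positivity
  · apply Integrable.const_mul
    exact integrable_exp_neg_mul_sq (by positivity)

/-- the two pointwise bounds -/
lemma bound1 (T t : ℝ) (hT : 3 ≤ T) : Real.exp (-(t ^ 2 / T ^ 2)) / (1 + |t|) ≤ gg T t := by
  have hT0 : 0 < T := by linarith
  unfold gg
  by_cases h : t ∈ Icc (-T) T
  · rw [indicator_of_mem h]
    have h1 : Real.exp (-(t ^ 2 / T ^ 2)) / (1 + |t|) ≤ (Real.sqrt (1 + t ^ 2))⁻¹ := by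
      rw [← one_div]
      apply div_le_div₀ (by norm_num)
      · rw [Real.exp_le_one_iff]
        have : 0 ≤ t ^ 2 / T ^ 2 := by positivity
        linarith
      · positivity
      · apply Real.sqrt_le_iff.2
        constructor
        · positivity
        · have := sq_abs t
          nlinarith [abs_nonneg t]
    have h2 : 0 ≤ (1 / T) * Real.exp (-(1 / (2 * T ^ 2)) * t ^ 2) := by positivity
    linarith
  · rw [indicator_of_notMem h, zero_add, mul_comm, mul_one_div]
    have hT1 : T ≤ 1 + |t| := by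
      by_contra hcon
      push Not at hcon
      apply h
      have := abs_le.1 (by linarith : |t| ≤ T)
      exact ⟨this.1, this.2⟩
    apply div_le_div₀ (Real.exp_pos _).le _ hT0 hT1
    apply Real.exp_le_exp.2
    have e : -(1 / (2 * T ^ 2)) * t ^ 2 = -(t ^ 2 / T ^ 2) / 2 := by field_simp
    rw [e]
    have : 0 ≤ t ^ 2 / T ^ 2 := by positivity
    linarith

lemma bound2 (T t : ℝ) (hT : 3 ≤ T) :
    Real.exp (-(t ^ 2 / T ^ 2)) * ((3 + |t|) / T ^ 2) ≤ 2 * gg T t := by
  have hT0 : 0 < T := by linarith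
  have h0 : 0 ≤ (Icc (-T) T).indicator (fun t => (Real.sqrt (1 + t ^ 2))⁻¹) t :=
    indicator_nonneg (fun x _ => by positivity) _
  have h1 : Real.exp (-(t ^ 2 / T ^ 2)) * ((3 + |t|) / T ^ 2) ≤
      2 * ((1 / T) * Real.exp (-(1 / (2 * T ^ 2)) * t ^ 2)) := by
    have e : -(t ^ 2 / T ^ 2) = -(1 / (2 * T ^ 2)) * t ^ 2 + -((|t| / T) ^ 2 / 2) := by
      rw [div_pow, sq_abs]; field_simp; ring
    rw [e, Real.exp_add]
    have h2 : |t| / T * Real.exp (-((|t| / T) ^ 2 / 2)) ≤ 1 := by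
      rw [Real.exp_neg, ← div_eq_mul_inv, div_le_one (Real.exp_pos _)]
      have := Real.add_one_le_exp ((|t| / T) ^ 2 / 2)
      nlinarith [sq_nonneg (|t| / T - 1)]
    have h3 : Real.exp (-((|t| / T) ^ 2 / 2)) ≤ 1 := by
      rw [Real.exp_le_one_iff]
      have : 0 ≤ (|t| / T) ^ 2 / 2 := by positivity
      linarith
    have h4 : (3 + |t|) / T ^ 2 ≤ (1 / T) * (1 + |t| / T) := by
      have : (1 / T) * (1 + |t| / T) = (T + |t|) / T ^ 2 := by field_simp
      rw [this]
      apply div_le_div_of_nonneg_right _ (by positivity)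
      linarith
    have hE := Real.exp_pos (-(1 / (2 * T ^ 2)) * t ^ 2)
    have hE2 := Real.exp_pos (-((|t| / T) ^ 2 / 2))
    calc Real.exp (-(1 / (2 * T ^ 2)) * t ^ 2) * Real.exp (-((|t| / T) ^ 2 / 2)) *
          ((3 + |t|) / T ^ 2)
        ≤ Real.exp (-(1 / (2 * T ^ 2)) * t ^ 2) * Real.exp (-((|t| / T) ^ 2 / 2)) *
          ((1 / T) * (1 + |t| / T)) := mul_le_mul_of_nonneg_left h4 (by positivity)
      _ = (1 / T) * Real.exp (-(1 / (2 * T ^ 2)) * t ^ 2) *
          (Real.exp (-((|t| / T) ^ 2 / 2)) + |t| / T * Real.exp (-((|t| / T) ^ 2 / 2))) := by ring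
      _ ≤ (1 / T) * Real.exp (-(1 / (2 * T ^ 2)) * t ^ 2) * (1 + 1) :=
          mul_le_mul_of_nonneg_left (add_le_add h3 h2) (by positivity)
      _ = _ := by ring
  unfold gg
  linarith

lemma poly_bd (Q : Polynomial ℂ) : ∃ C : ℝ, 0 < C ∧ ∀ z : ℂ, ‖z‖ ≤ 3 → ‖Q.eval z‖ ≤ C := by
  obtain ⟨C, hC⟩ := (isCompact_closedBall (0 : ℂ) 3).exists_bound_of_continuousOn
    (f := fun z => Q.eval z) Q.continuous.continuousOn
  refine ⟨max C 1, by positivity, fun z hz => ?_⟩
  exact (hC z (by simpa using hz)).trans (le_max_left _ _)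

theorem t_IBP : S_IBP := by
  rintro ⟨C0, hC0, hR⟩ P
  obtain ⟨C1, hC1, hP1⟩ := poly_bd (P.map (algebraMap ℝ ℂ))
  obtain ⟨C2, hC2, hP2⟩ := poly_bd ((P.map (algebraMap ℝ ℂ)) * Polynomial.X).derivative
  refine ⟨8 * (C0 * (C1 * 3) + 2 * (C0 * (C2 * 6))), by positivity, ?_⟩
  intro T hT δ hδ hδ8 c hc hc3 y hy
  obtain ⟨hR1, -⟩ := hR δ hδ hδ8
  have hT0 : 0 < T := by linarith
  set σ : ℝ := 1 / 2 + δ with hσ
  have hcσ : |c - σ| ≤ 3 := by
    rw [abs_le]; constructor <;> linarith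
  have hre : ∀ t : ℝ, ((c : ℂ) + t * I).re = c := by intro t; simp
  have him : ∀ t : ℝ, ((c : ℂ) + t * I).im = t := by intro t; simp
  have hRt : ∀ t : ℝ, DifferentiableAt ℂ (R δ) ((c : ℂ) + t * I) ∧
      ‖R δ ((c : ℂ) + t * I)‖ ≤ C0 ∧
      ‖deriv (R δ) ((c : ℂ) + t * I)‖ ≤ C0 / (1 + |t|) := by
    intro t
    have := hR1 ((c : ℂ) + t * I) (by rw [hre]; exact hc) (by rw [hre]; exact hc3)
    rwa [him] at this
  have hz : ∀ t : ℝ, ‖zz T σ ((c : ℂ) + t * I)‖ ≤ 3 * Real.exp (-(t ^ 2 / T ^ 2)) :=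
    fun t => zz_norm T σ c t hT hcσ
  have hz3 : ∀ t : ℝ, ‖zz T σ ((c : ℂ) + t * I)‖ ≤ 3 := by
    intro t
    refine (hz t).trans ?_
    have : Real.exp (-(t ^ 2 / T ^ 2)) ≤ 1 := by
      rw [Real.exp_le_one_iff]
      have : 0 ≤ t ^ 2 / T ^ 2 := by positivity
      linarith
    linarith
  have hlin : ∀ t : ℝ, HasDerivAt (fun t : ℝ => (c : ℂ) + t * I) I t := by
    intro t
    have h := ((hasDerivAt_id (t : ℂ)).comp_ofReal.mul_const I).const_add (c : ℂ)
    simpa using h
  set F : ℝ → ℂ := fun t => R δ ((c : ℂ) + t * I) * W P T σ ((c : ℂ) + t * I) with hF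
  set Wd : ℝ → ℂ := fun t => ((P.map (algebraMap ℝ ℂ)) * Polynomial.X).derivative.eval
    (zz T σ ((c : ℂ) + t * I)) * (zz T σ ((c : ℂ) + t * I) *
      (2 * (((c : ℂ) + t * I) - σ) / (T : ℂ) ^ 2)) with hWd
  set F' : ℝ → ℂ := fun t => (deriv (R δ) ((c : ℂ) + t * I) * I) * W P T σ ((c : ℂ) + t * I) +
    R δ ((c : ℂ) + t * I) * (Wd t * I) with hF'
  have hFd : ∀ t : ℝ, HasDerivAt F (F' t) t := by
    intro t
    have h1 : HasDerivAt (fun t : ℝ => R δ ((c : ℂ) + t * I))
        (deriv (R δ) ((c : ℂ) + t * I) * I) t :=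
      HasDerivAt.comp t (h₂ := R δ) (hRt t).1.hasDerivAt (hlin t)
    have h2 : HasDerivAt (fun t : ℝ => W P T σ ((c : ℂ) + t * I)) (Wd t * I) t :=
      HasDerivAt.comp t (h₂ := W P T σ) (W_hd P T σ _) (hlin t)
    exact h1.mul h2
  have hWb : ∀ t : ℝ, ‖W P T σ ((c : ℂ) + t * I)‖ ≤ C1 * (3 * Real.exp (-(t ^ 2 / T ^ 2))) := by
    intro t
    rw [W_eq, norm_mul]
    exact mul_le_mul (hP1 _ (hz3 t)) (hz t) (norm_nonneg _) hC1.le
  have hlen : ∀ t : ℝ, ‖2 * (((c : ℂ) + t * I) - σ) / (T : ℂ) ^ 2‖ ≤ 2 * ((3 + |t|) / T ^ 2) := by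
    intro t
    rw [norm_div, norm_mul, norm_pow, Complex.norm_real, Real.norm_of_nonneg hT0.le,
      Complex.norm_ofNat, mul_div_assoc]
    apply mul_le_mul_of_nonneg_left _ (by norm_num)
    apply div_le_div_of_nonneg_right _ (by positivity)
    have e : (c : ℂ) + t * I - σ = ((c - σ : ℝ) : ℂ) + (t : ℂ) * I := by push_cast; ring
    rw [e]
    refine (norm_add_le _ _).trans ?_
    rw [norm_mul, Complex.norm_I, mul_one, Complex.norm_real, Complex.norm_real, Real.norm_eq_abs,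
      Real.norm_eq_abs]
    linarith
  have hWdb : ∀ t : ℝ, ‖Wd t‖ ≤ C2 * (6 * (Real.exp (-(t ^ 2 / T ^ 2)) * ((3 + |t|) / T ^ 2))) := by
    intro t
    rw [hWd]
    simp only
    rw [norm_mul]
    apply mul_le_mul (hP2 _ (hz3 t)) _ (norm_nonneg _) hC2.le
    rw [norm_mul]
    refine (mul_le_mul (hz t) (hlen t) (norm_nonneg _) (by positivity)).trans (le_of_eq ?_)
    ring
  have hFb : ∀ t : ℝ, ‖F t‖ ≤ C0 * (C1 * (3 * Real.exp (-(t ^ 2 / T ^ 2)))) := by
    intro t
    rw [hF]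
    simp only
    rw [norm_mul]
    exact mul_le_mul (hRt t).2.1 (hWb t) (norm_nonneg _) hC0.le
  have hF'b : ∀ t : ℝ, ‖F' t‖ ≤ (C0 * (C1 * 3) + 2 * (C0 * (C2 * 6))) * gg T t := by
    intro t
    rw [hF']
    simp only
    refine (norm_add_le _ _).trans ?_
    rw [norm_mul, norm_mul, norm_mul, norm_mul, Complex.norm_I, mul_one, mul_one]
    have h1 : ‖deriv (R δ) ((c : ℂ) + t * I)‖ * ‖W P T σ ((c : ℂ) + t * I)‖ ≤
        C0 * (C1 * 3) * gg T t := by
      refine (mul_le_mul (hRt t).2.2 (hWb t) (norm_nonneg _) (by positivity)).trans ?_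
      have := mul_le_mul_of_nonneg_left (bound1 T t hT) (by positivity : 0 ≤ C0 * (C1 * 3))
      refine le_trans (le_of_eq ?_) this
      ring
    have h2 : ‖R δ ((c : ℂ) + t * I)‖ * ‖Wd t‖ ≤ 2 * (C0 * (C2 * 6)) * gg T t := by
      refine (mul_le_mul (hRt t).2.1 (hWdb t) (norm_nonneg _) hC0.le).trans ?_
      have := mul_le_mul_of_nonneg_left (bound2 T t hT) (by positivity : 0 ≤ C0 * (C2 * 6))
      refine le_trans (le_of_eq ?_) (this.trans (le_of_eq ?_))
      · ring
      · ring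
    linarith
  have hFc : Continuous F := by
    rw [continuous_iff_continuousAt]
    intro t
    exact (hFd t).continuousAt
  have hF'm : Measurable F' := by
    have h1 : Measurable fun t : ℝ => (c : ℂ) + t * I := by fun_prop
    have h2 : Measurable fun t : ℝ => deriv (R δ) ((c : ℂ) + t * I) :=
      (measurable_deriv (R δ)).comp h1
    have h3 : Continuous fun t : ℝ => W P T σ ((c : ℂ) + t * I) := by
      rw [continuous_iff_continuousAt]
      intro t
      exact (HasDerivAt.comp t (h₂ := W P T σ) (W_hd P T σ _) (hlin t)).continuousAt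
    have h4 : Continuous fun t : ℝ => R δ ((c : ℂ) + t * I) := by
      rw [continuous_iff_continuousAt]
      intro t
      exact (HasDerivAt.comp t (h₂ := R δ) (hRt t).1.hasDerivAt (hlin t)).continuousAt
    have h5 : Continuous Wd := by
      have hzc : Continuous fun t : ℝ => zz T σ ((c : ℂ) + t * I) := by
        unfold zz; fun_prop
      rw [hWd]
      exact ((Polynomial.continuous _).comp hzc).mul (hzc.mul (by fun_prop))
    rw [hF']
    exact ((h2.mul_const I).mul h3.measurable).add (h4.measurable.mul (h5.measurable.mul_const I))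
  have hyI : (I * (y : ℂ)) ≠ 0 := mul_ne_zero I_ne_zero (by exact_mod_cast hy)
  set v : ℝ → ℂ := fun t => cexp (I * ((t * y : ℝ) : ℂ)) / (I * (y : ℂ)) with hv
  set v' : ℝ → ℂ := fun t => cexp (I * ((t * y : ℝ) : ℂ)) with hv'
  have hvd : ∀ t : ℝ, HasDerivAt v (v' t) t := by
    intro t
    have h1 : HasDerivAt (fun t : ℝ => I * ((t * y : ℝ) : ℂ)) (I * y) t := by
      have h := (((hasDerivAt_id (t : ℂ)).comp_ofReal.mul_const (y : ℂ))).const_mul I
      simpa using h
    have h2 := (h1.cexp).div_const (I * (y : ℂ))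
    rw [mul_div_assoc, div_self hyI, mul_one] at h2
    exact h2
  have hexp : ∀ t : ℝ, ‖cexp (I * ((t * y : ℝ) : ℂ))‖ = 1 := by
    intro t
    rw [mul_comm]; exact Complex.norm_exp_ofReal_mul_I _
  have hvn : ∀ t : ℝ, ‖v t‖ = 1 / |y| := by
    intro t
    rw [hv]
    simp only
    rw [norm_div, hexp, norm_mul, Complex.norm_I, one_mul, Complex.norm_real, Real.norm_eq_abs]
  have hvc : Continuous v := by rw [hv]; fun_prop
  have hv'c : Continuous v' := by rw [hv']; fun_prop
  have hgi := gg_integrable T hT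
  have hexpi : Integrable fun t : ℝ => Real.exp (-(t ^ 2 / T ^ 2)) := by
    have : (fun t : ℝ => Real.exp (-(t ^ 2 / T ^ 2))) =
        fun t : ℝ => Real.exp (-(1 / T ^ 2) * t ^ 2) := by
      ext t; congr 1; ring
    rw [this]
    exact integrable_exp_neg_mul_sq (by positivity)
  have hFi : Integrable F :=
    Integrable.mono' (((hexpi.const_mul 3).const_mul C1).const_mul C0)
      hFc.aestronglyMeasurable (Eventually.of_forall hFb)
  have hF'i : Integrable F' :=
    Integrable.mono' (hgi.const_mul _) hF'm.aestronglyMeasurable (Eventually.of_forall hF'b)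
  have huv' : Integrable (F * v') := by
    refine Integrable.mono' (((hexpi.const_mul 3).const_mul C1).const_mul C0)
      (hFc.mul hv'c).aestronglyMeasurable (Eventually.of_forall fun t => ?_)
    rw [Pi.mul_apply, norm_mul, hexp, mul_one]
    exact hFb t
  have hyp : 0 < 1 / |y| := by
    have := abs_pos.2 hy
    positivity
  have huv : Integrable (F * v) := by
    refine Integrable.mono' ((((hexpi.const_mul 3).const_mul C1).const_mul C0).mul_const (1 / |y|))
      (hFc.mul hvc).aestronglyMeasurable (Eventually.of_forall fun t => ?_)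
    rw [Pi.mul_apply, norm_mul, hvn]
    exact mul_le_mul_of_nonneg_right (hFb t) hyp.le
  have hu'vb : ∀ t, ‖F' t * v t‖ ≤
      ((C0 * (C1 * 3) + 2 * (C0 * (C2 * 6))) * gg T t) * (1 / |y|) := by
    intro t
    rw [norm_mul, hvn]
    exact mul_le_mul_of_nonneg_right (hF'b t) hyp.le
  have hu'v : Integrable (F' * v) := by
    refine Integrable.mono' ((hgi.const_mul _).mul_const (1 / |y|))
      (hF'm.mul hvc.measurable).aestronglyMeasurable (Eventually.of_forall hu'vb)
  have hibp := integral_mul_deriv_eq_deriv_mul_of_integrable (fun x _ => hFd x) (fun x _ => hvd x)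
    huv' hu'v huv
  have e1 : ∫ t : ℝ, cexp (I * ((t * y : ℝ) : ℂ)) *
      (R δ ((c : ℂ) + t * I) * W P T σ ((c : ℂ) + t * I)) = ∫ t : ℝ, F t * v' t := by
    apply integral_congr_ae
    refine Eventually.of_forall fun t => ?_
    simp only [hF, hv']
    ring
  rw [e1, hibp, norm_neg]
  refine (norm_integral_le_of_norm_le ((hgi.const_mul _).mul_const (1 / |y|))
    (Eventually.of_forall hu'vb)).trans ?_
  rw [integral_mul_const, integral_const_mul]
  have hg := gg_integral T hT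
  calc (C0 * (C1 * 3) + 2 * (C0 * (C2 * 6))) * (∫ t, gg T t) * (1 / |y|)
      ≤ (C0 * (C1 * 3) + 2 * (C0 * (C2 * 6))) * (8 * Real.log T) * (1 / |y|) := by
        apply mul_le_mul_of_nonneg_right _ hyp.le
        exact mul_le_mul_of_nonneg_left hg (by positivity)
    _ = _ := by ring

end Pool.Agent.H353.HB
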